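import Mathlib

set_option autoImplicit false

namespace Pool.Agent.Results.MP_78a590_co.Cex

/-- Real Hadamard matrix. -/
def IsHad {n : ℕ} (H : Matrix (Fin n) (Fin n) ℤ) : Prop :=
  (∀ i j, H i j = 1 ∨ H i j = -1) ∧ H * H.transpose = (n : ℤ) • (1 : Matrix _ _ ℤ)

/-- `T` is a trade in `H`. -/
def IsTrade {n : ℕ} (H : Matrix (Fin n) (Fin n) ℤ) (T : Finset (Fin n × Fin n)) : Prop :=
  ∃ H', IsHad H' ∧ H' ≠ H ∧ ∀ i j, (i, j) ∈ T ↔ H' i j ≠ H i j

/-- `T` is a rectangular trade in `H`. -/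
def IsRect {n : ℕ} (H : Matrix (Fin n) (Fin n) ℤ) (T : Finset (Fin n × Fin n)) : Prop :=
  IsTrade H T ∧ ∃ A B : Finset (Fin n), T = A ×ˢ B

def H4 : Matrix (Fin 4) (Fin 4) ℤ := !![1, 1, 1, 1; 1, -1, 1, -1; 1, 1, -1, -1; 1, -1, -1, 1]
def H4' : Matrix (Fin 4) (Fin 4) ℤ := !![1, 1, 1, 1; 1, 1, -1, -1; 1, -1, -1, 1; 1, -1, 1, -1]
def T0 : Finset (Fin 4 × Fin 4) := {(1, 1), (1, 2), (2, 1), (2, 3), (3, 2), (3, 3)}
def P : Finset (Fin 4 × Fin 4) := {(0, 1), (0, 2), (1, 0), (1, 1), (2, 0), (2, 2)}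
def N (A B : Finset (Fin 4)) : Matrix (Fin 4) (Fin 4) ℤ :=
  fun i j => if i ∈ A ∧ j ∈ B then - H4 i j else H4 i j

lemma key : ∀ A B : Finset (Fin 4),
    N A B * (N A B).transpose = ((4 : ℕ) : ℤ) • (1 : Matrix _ _ ℤ) →
    Even (P.filter (· ∈ A ×ˢ B)).card := by decide +kernel

lemma had4 : IsHad H4 := by unfold IsHad; decide +kernel

/-- A trade in a Hadamard matrix that is not a symmetric difference of rectangular trades. -/
theorem result : ∃ (n : ℕ) (H : Matrix (Fin n) (Fin n) ℤ) (T : Finset (Fin n × Fin n)),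
    IsHad H ∧ IsTrade H T ∧ ¬ ∃ F : Finset (Finset (Fin n × Fin n)),
      (∀ R ∈ F, IsRect H R) ∧ ∀ p, p ∈ T ↔ Odd (F.filter (p ∈ ·)).card := by
  refine ⟨4, H4, T0, had4, ⟨H4', by unfold IsHad; decide +kernel, by decide +kernel,
    by decide +kernel⟩, ?_⟩
  rintro ⟨F, h1, h2⟩
  have e1 : Even (∑ R ∈ F, (P.filter (· ∈ R)).card) := by
    refine Finset.even_sum _ fun R hR => ?_
    obtain ⟨⟨H', a1, _, a3⟩, A, B, rfl⟩ := h1 R hR
    have : H' = N A B := by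
      ext i j
      have b1 := a3 i j
      rw [Finset.mem_product] at b1
      simp only [N, b1]
      rcases a1.1 i j with p | p <;> rcases had4.1 i j with q | q <;> simp [p, q]
    exact key A B (this ▸ a1.2)
  have e2 := Finset.sum_card_bipartiteAbove_eq_sum_card_bipartiteBelow (s := F) (t := P)
    (fun R p => p ∈ R)
  simp only [Finset.bipartiteAbove, Finset.bipartiteBelow] at e2
  rw [e2, Finset.even_sum_iff_even_card_odd] at e1
  simp only [← h2] at e1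
  revert e1
  decide +kernel

end Pool.Agent.Results.MP_78a590_co.Cex
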